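import Pool.Agent.Helper40.W4.Spec

/-!
# W4 part PIDC: the coordinate ring of a conic without rational points is a principal ideal ring
-/

set_option autoImplicit false

namespace Pool.Agent.Helper41.W4.PIDC

open Polynomial Module Pool.Agent.Helper40.W4

section

variable {k : Type} [Field k]

/-- The polynomial `α X² + β`. -/
noncomputable abbrev gp (α β : k) : k[X] := C α * X ^ 2 + C β

/-- The coordinate ring of the conic. -/
abbrev D (α β : k) := QuadraticAlgebra k[X] (gp α β) 0

lemma a_ne_zero {a : k} (ha : ¬ IsSquare a) : a ≠ 0 := by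
  rintro rfl
  exact ha ⟨0, by simp⟩

lemma natDegree_gp {a c : k} (ha : a ≠ 0) : (gp a c).natDegree = 2 := by
  unfold gp
  compute_degree!

lemma leadingCoeff_gp {a c : k} (ha : a ≠ 0) : (gp a c).leadingCoeff = a := by
  rw [leadingCoeff, natDegree_gp ha]
  simp [gp]

lemma gp_ne_zero {a c : k} (ha : a ≠ 0) : gp a c ≠ 0 := by
  intro h
  have := natDegree_gp (c := c) ha
  rw [h] at this
  simp at this

lemma norm_D {a c : k} (w : D a c) :
    QuadraticAlgebra.norm w = w.re ^ 2 - gp a c * w.im ^ 2 := by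
  rw [QuadraticAlgebra.norm_def]
  ring

/-- The degree of `A² - g B²`. -/
lemma natDegree_sq_sub {a c : k} (ha : ¬ IsSquare a) (A B : k[X]) (hB : B ≠ 0) :
    A ^ 2 - gp a c * B ^ 2 ≠ 0 ∧
      (A ^ 2 - gp a c * B ^ 2).natDegree = max (2 * A.natDegree) (2 + 2 * B.natDegree) := by
  have ha0 := a_ne_zero ha
  have hf0 := gp_ne_zero (c := c) ha0
  have hd1 : (A ^ 2).natDegree = 2 * A.natDegree := by rw [natDegree_pow]
  have hd2 : (gp a c * B ^ 2).natDegree = 2 + 2 * B.natDegree := by
    rw [natDegree_mul hf0 (pow_ne_zero _ hB), natDegree_pow, natDegree_gp ha0]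
  have hne : ∀ p : k[X], p.natDegree = max (2 * A.natDegree) (2 + 2 * B.natDegree) → p ≠ 0 := by
    intro p hp h0
    rw [h0, natDegree_zero] at hp
    have := le_max_right (2 * A.natDegree) (2 + 2 * B.natDegree)
    omega
  suffices h : (A ^ 2 - gp a c * B ^ 2).natDegree =
      max (2 * A.natDegree) (2 + 2 * B.natDegree) from ⟨hne _ h, h⟩
  rcases lt_trichotomy (2 * A.natDegree) (2 + 2 * B.natDegree) with h | h | h
  · rw [natDegree_sub_eq_right_of_natDegree_lt (by rw [hd1, hd2]; exact h), hd2, max_eq_right h.le]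
  · rw [h, max_self]
    apply natDegree_eq_of_le_of_coeff_ne_zero
    · refine (natDegree_sub_le _ _).trans ?_
      rw [hd1, hd2, h, max_self]
    · rw [coeff_sub]
      have h1 : (A ^ 2).coeff (2 + 2 * B.natDegree) = A.leadingCoeff ^ 2 := by
        rw [← h, ← hd1, ← leadingCoeff, leadingCoeff_pow]
      have h2 : (gp a c * B ^ 2).coeff (2 + 2 * B.natDegree) = a * B.leadingCoeff ^ 2 := by
        rw [← hd2, ← leadingCoeff, leadingCoeff_mul, leadingCoeff_pow, leadingCoeff_gp ha0]
      rw [h1, h2]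
      intro h0
      have hB0 : B.leadingCoeff ≠ 0 := leadingCoeff_ne_zero.2 hB
      exact ha ⟨A.leadingCoeff / B.leadingCoeff, by field_simp; linear_combination -h0⟩
  · rw [natDegree_sub_eq_left_of_natDegree_lt (by rw [hd1, hd2]; exact h), hd1, max_eq_left h.le]

lemma norm_ne_zero {a c : k} (ha : ¬ IsSquare a) (w : D a c) (hw : w ≠ 0) :
    QuadraticAlgebra.norm w ≠ 0 := by
  rw [norm_D]
  by_cases hB : w.im = 0
  · have : w.re ≠ 0 := by
      intro h
      exact hw (by ext1 <;> simp [h, hB])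
    simpa [hB] using this
  · exact (natDegree_sq_sub ha w.re w.im hB).1

lemma natDegree_norm {a c : k} (ha : ¬ IsSquare a) (w : D a c) :
    (w.im = 0 ∧ (QuadraticAlgebra.norm w).natDegree = 2 * w.re.natDegree) ∨
    (w.im ≠ 0 ∧ (QuadraticAlgebra.norm w).natDegree =
      max (2 * w.re.natDegree) (2 + 2 * w.im.natDegree)) := by
  rw [norm_D]
  by_cases hB : w.im = 0
  · left
    refine ⟨hB, ?_⟩
    simp [hB]
  · right
    exact ⟨hB, (natDegree_sq_sub ha w.re w.im hB).2⟩

lemma even_natDegree_norm {a c : k} (ha : ¬ IsSquare a) (w : D a c) :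
    Even (QuadraticAlgebra.norm w).natDegree := by
  rcases natDegree_norm ha w with ⟨-, h⟩ | ⟨-, h⟩
  · rw [h]
    exact even_two_mul _
  · rw [h]
    rcases max_choice (2 * w.re.natDegree) (2 + 2 * w.im.natDegree) with h' | h' <;> rw [h']
    · exact even_two_mul _
    · exact ⟨1 + w.im.natDegree, by ring⟩

lemma isDomain_D {a c : k} (ha : ¬ IsSquare a) : IsDomain (D a c) := by
  have : NoZeroDivisors (D a c) := by
    constructor
    intro x y hxy
    by_contra! h
    have h1 := norm_ne_zero ha x h.1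
    have h2 := norm_ne_zero ha y h.2
    have h3 := congrArg QuadraticAlgebra.norm hxy
    rw [map_mul, QuadraticAlgebra.norm_zero] at h3
    exact mul_ne_zero h1 h2 h3
  exact NoZeroDivisors.to_isDomain _

lemma norm_eq_algebra_norm {R : Type} [CommRing R] {a b : R} (w : QuadraticAlgebra R a b) :
    Algebra.norm R w = QuadraticAlgebra.norm w := by
  rw [Algebra.norm_apply, ← QuadraticAlgebra.det_toLinearMap_eq_norm]
  congr 1

lemma finite_quot_D {a c : k} (ha : ¬ IsSquare a) (I : Ideal (D a c)) (hI : I ≠ ⊥) :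
    FiniteDimensional k (D a c ⧸ I) := by
  have := isDomain_D (c := c) ha
  have hfin := fun i => (inferInstance : FiniteDimensional k (k[X] ⧸ Ideal.span
    ({I.smithCoeffs (QuadraticAlgebra.basis (gp a c) 0) hI i} : Set k[X])))
  exact Module.Finite.equiv (Ideal.quotientEquivDirectSum k
    (QuadraticAlgebra.basis (gp a c) 0) hI).symm

lemma finrank_quot_D {a c : k} (ha : ¬ IsSquare a) (w : D a c) (hw : w ≠ 0) :
    finrank k (D a c ⧸ Ideal.span {w}) = (QuadraticAlgebra.norm w).natDegree := by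
  have := isDomain_D (c := c) ha
  rw [finrank_quotient_span_eq_natDegree_norm (QuadraticAlgebra.basis (gp a c) 0) hw,
    norm_eq_algebra_norm]

/-- The space of elements `A + B ω` with `deg A ≤ m`, `deg B < m`. -/
noncomputable def incl (a c : k) (m : ℕ) : (degreeLT k (m + 1) × degreeLT k m) →ₗ[k] D a c where
  toFun p := ⟨p.1, p.2⟩
  map_add' _ _ := by ext1 <;> simp
  map_smul' _ _ := by ext1 <;> simp

lemma exists_small {a c : k} (ha : ¬ IsSquare a) (I : Ideal (D a c)) (hI : I ≠ ⊥) (m : ℕ)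
    (h : finrank k (D a c ⧸ I) < 2 * m + 1) :
    ∃ w ∈ I, w ≠ 0 ∧ (QuadraticAlgebra.norm w).natDegree ≤ 2 * m := by
  have hfin := finite_quot_D ha I hI
  have e1 := (degreeLTEquiv k (m + 1)).finrank_eq
  have e2 := (degreeLTEquiv k m).finrank_eq
  have f1 : FiniteDimensional k (degreeLT k (m + 1)) :=
    Module.Finite.equiv (degreeLTEquiv k (m + 1)).symm
  have f2 : FiniteDimensional k (degreeLT k m) := Module.Finite.equiv (degreeLTEquiv k m).symm
  have e3 : finrank k (degreeLT k (m + 1) × degreeLT k m) = 2 * m + 1 := by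
    rw [finrank_prod, e1, e2]
    simp
    ring
  have hker := LinearMap.ker_ne_bot_of_finrank_lt
    (f := ((Ideal.Quotient.mkₐ k I).toLinearMap ∘ₗ incl a c m)) (by rw [e3]; exact h)
  obtain ⟨p, hp, hp0⟩ := Submodule.exists_mem_ne_zero_of_ne_bot hker
  have hmem : incl a c m p ∈ I := by
    rw [← Ideal.Quotient.eq_zero_iff_mem]
    simpa using hp
  have hre : (incl a c m p).re = p.1 := rfl
  have him : (incl a c m p).im = p.2 := rfl
  have d1 := mem_degreeLT.1 p.1.2
  have d2 := mem_degreeLT.1 p.2.2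
  refine ⟨incl a c m p, hmem, ?_, ?_⟩
  · intro h0
    apply hp0
    have h1 := congrArg QuadraticAlgebra.re h0
    have h2 := congrArg QuadraticAlgebra.im h0
    rw [hre] at h1
    rw [him] at h2
    ext1
    · exact Subtype.ext h1
    · exact Subtype.ext h2
  · have g1 : (p.1 : k[X]).natDegree ≤ m := by
      by_cases h0 : (p.1 : k[X]) = 0
      · rw [h0, natDegree_zero]; exact Nat.zero_le _
      · rw [← natDegree_lt_iff_degree_lt h0] at d1
        omega
    rcases natDegree_norm ha (incl a c m p) with ⟨_, hn⟩ | ⟨h0, hn⟩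
    · rw [hn, hre]
      omega
    · rw [hn, hre, him]
      rw [him] at h0
      rw [← natDegree_lt_iff_degree_lt h0] at d2
      rw [max_le_iff]
      omega

/-- The conic has a rational point or the ideal is principal. -/
lemma main {a c : k} (ha : ¬ IsSquare a) (hpt : ∀ x y : k, x ^ 2 ≠ a * y ^ 2 + c)
    (I : Ideal (D a c)) : ∃ w, I = Ideal.span {w} := by
  by_cases hI : I = ⊥
  · exact ⟨0, by rw [hI]; simp⟩
  have hfin := finite_quot_D ha I hI
  obtain ⟨m, hm⟩ := Nat.even_or_odd' (finrank k (D a c ⧸ I))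
  -- the quotient map
  have hφ : ∀ w ∈ I, w ≠ 0 → ∃ φ : (D a c ⧸ Ideal.span {w}) →ₗ[k] (D a c ⧸ I),
      Function.Surjective φ ∧ ∀ x, φ (Ideal.Quotient.mk _ x) = Ideal.Quotient.mk _ x := by
    intro w hw hw0
    have hle : Ideal.span {w} ≤ I := (Ideal.span_singleton_le_iff_mem _).2 hw
    refine ⟨(Ideal.Quotient.factorₐ k hle).toLinearMap, ?_, fun x => rfl⟩
    intro y
    obtain ⟨x, rfl⟩ := Ideal.Quotient.mk_surjective y
    exact ⟨Ideal.Quotient.mk _ x, rfl⟩
  rcases hm with hm | hm
  · obtain ⟨w, hw, hw0, hwn⟩ := exists_small ha I hI m (by omega)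
    obtain ⟨φ, hs, hx⟩ := hφ w hw hw0
    have hb : Ideal.span {w} ≠ ⊥ := by simpa [Ideal.span_singleton_eq_bot] using hw0
    have hfin' := finite_quot_D ha _ hb
    have hr := finrank_quot_D ha w hw0
    have hle := LinearMap.finrank_le_finrank_of_surjective hs
    have heq : finrank k (D a c ⧸ Ideal.span {w}) = finrank k (D a c ⧸ I) := by omega
    have hinj : Function.Injective φ := (LinearMap.injective_iff_surjective_of_finrank_eq_finrank heq).2 hs
    refine ⟨w, le_antisymm ?_ ((Ideal.span_singleton_le_iff_mem _).2 hw)⟩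
    intro x hxI
    rw [← Ideal.Quotient.eq_zero_iff_mem]
    apply hinj
    rw [hx, map_zero]
    exact Ideal.Quotient.eq_zero_iff_mem.2 hxI
  · exfalso
    obtain ⟨w, hw, hw0, hwn⟩ := exists_small ha I hI (m + 1) (by omega)
    obtain ⟨φ, hs, hx⟩ := hφ w hw hw0
    have hb : Ideal.span {w} ≠ ⊥ := by simpa [Ideal.span_singleton_eq_bot] using hw0
    have hfin' := finite_quot_D ha _ hb
    have hr := finrank_quot_D ha w hw0
    have hle := LinearMap.finrank_le_finrank_of_surjective hs
    obtain ⟨j, hj⟩ := even_natDegree_norm ha w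
    have heq : finrank k (D a c ⧸ Ideal.span {w}) = finrank k (D a c ⧸ I) + 1 := by omega
    have hker : finrank k (LinearMap.ker φ) = 1 := by
      have h1 := LinearMap.finrank_range_add_finrank_ker φ
      rw [LinearMap.range_eq_top.2 hs, finrank_top] at h1
      omega
    obtain ⟨⟨v, hv⟩, hv0, hvs⟩ := finrank_eq_one_iff'.1 hker
    have hv0' : v ≠ 0 := fun h => hv0 (Subtype.ext h)
    -- action of an element
    have hact : ∀ d : D a c ⧸ Ideal.span {w}, ∃ x : k, d * v = x • v := by
      intro d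
      have hmem : d * v ∈ LinearMap.ker φ := by
        obtain ⟨d', rfl⟩ := Ideal.Quotient.mk_surjective d
        obtain ⟨v', rfl⟩ := Ideal.Quotient.mk_surjective v
        rw [LinearMap.mem_ker] at hv ⊢
        rw [hx] at hv
        rw [← map_mul, hx, map_mul, hv, mul_zero]
      obtain ⟨x, hx'⟩ := hvs ⟨_, hmem⟩
      exact ⟨x, (congrArg Subtype.val hx').symm⟩
    obtain ⟨x, hx1⟩ := hact (Ideal.Quotient.mk _ ⟨0, 1⟩)
    obtain ⟨y, hy1⟩ := hact (Ideal.Quotient.mk _ ⟨X, 0⟩)
    have r1 : (⟨0, 1⟩ : D a c) * ⟨0, 1⟩ = ⟨C a, 0⟩ * (⟨X, 0⟩ * ⟨X, 0⟩) + ⟨C c, 0⟩ := by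
      ext1
      · simp only [QuadraticAlgebra.re_mul, QuadraticAlgebra.re_add, gp]
        ring
      · simp
    have r2 : ∀ t : k, ∀ u : D a c ⧸ Ideal.span {w},
        Ideal.Quotient.mk _ (⟨C t, 0⟩ : D a c) * u = t • u := by
      intro t u
      rw [Algebra.smul_def]
      rfl
    have r3 := congrArg (fun z => Ideal.Quotient.mk (Ideal.span {w}) z * v) r1
    simp only [map_mul, map_add] at r3
    have r4 : (x ^ 2) • v = (a * y ^ 2 + c) • v := by
      calc (x ^ 2) • v = x • (x • v) := by rw [smul_smul, pow_two]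
        _ = Ideal.Quotient.mk _ (⟨0, 1⟩ : D a c) * (Ideal.Quotient.mk _ (⟨0, 1⟩ : D a c) * v) := by
          rw [hx1, mul_smul_comm, hx1]
        _ = Ideal.Quotient.mk _ (⟨C a, 0⟩ : D a c) * (Ideal.Quotient.mk _ (⟨X, 0⟩ : D a c) *
            (Ideal.Quotient.mk _ (⟨X, 0⟩ : D a c) * v)) + Ideal.Quotient.mk _ (⟨C c, 0⟩ : D a c) * v := by
          rw [← mul_assoc, r3]
          ring
        _ = (a * y ^ 2 + c) • v := by
          rw [hy1, mul_smul_comm, hy1, r2, r2, smul_smul, smul_smul, ← add_smul]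
          congr 1
          ring
    have r5 : (x ^ 2 - (a * y ^ 2 + c)) • v = 0 := by rw [sub_smul, r4, sub_self]
    rcases smul_eq_zero.1 r5 with h | h
    · exact hpt x y (sub_eq_zero.1 h)
    · exact hv0' h

end

theorem pidc_thm : S_PIDC := by
  intro κ _ _ α β hα _ hpt I
  exact main hα hpt I

end Pool.Agent.Helper41.W4.PIDC
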