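import Pool.Agent.Helper40.W4.Spec

/-!
# W4 part W3: the form `⟨α f, 1, -γ⟩` is minimal weakly isotropic
-/

set_option autoImplicit false

namespace Pool.Agent.Helper41.W4

open Polynomial Module Pool.Agent.Helper40.W4

section

variable {F : Type} [Field F]

lemma natDegree_le_of_coeff_zero {P : F[X]} {N : ℕ} (h1 : P.natDegree ≤ N + 1)
    (h2 : P.coeff (N + 1) = 0) : P.natDegree ≤ N := by
  by_contra h
  have h3 : P.natDegree = N + 1 := by omega
  have h4 : P.leadingCoeff = 0 := by rw [leadingCoeff, h3, h2]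
  rw [leadingCoeff_eq_zero] at h4
  rw [h4, natDegree_zero] at h3
  omega

/-- Degrees and leading coefficients. -/
lemma deg_aux {u v : F} {e : ℕ} {T : F[X]} (hT : T.natDegree ≤ 2 * e) (hTv : T.coeff (2 * e) = v)
    (hH : ∀ (m : ℕ) (x y : F) (z : Fin m → F), u * x ^ 2 + v * y ^ 2 + ∑ i, z i ^ 2 = 0 →
      x = 0 ∧ y = 0 ∧ z = 0)
    {m : ℕ} (P Q : F[X]) (S : Fin m → F[X]) (n : ℕ) (hn : e ≤ n)
    (h : (C u * P ^ 2 + T * Q ^ 2 + ∑ i, S i ^ 2).natDegree ≤ 2 * n) :
    P.natDegree ≤ n ∧ Q.natDegree + e ≤ n := by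
  have key : ∀ k : ℕ, P.natDegree ≤ n + k → Q.natDegree + e ≤ n + k →
      (∀ i, (S i).natDegree ≤ n + k) → P.natDegree ≤ n ∧ Q.natDegree + e ≤ n := by
    intro k
    induction k with
    | zero => intro h1 h2 _; exact ⟨by simpa using h1, by simpa using h2⟩
    | succ k ih =>
      intro h1 h2 h3
      have c0 : (C u * P ^ 2 + T * Q ^ 2 + ∑ i, S i ^ 2).coeff (2 * (n + (k + 1))) = 0 :=
        coeff_eq_zero_of_natDegree_lt (by omega)
      have c1 : (C u * P ^ 2).coeff (2 * (n + (k + 1))) = u * P.coeff (n + (k + 1)) ^ 2 := by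
        rw [coeff_C_mul, coeff_pow_of_natDegree_le h1]
      have c2 : (T * Q ^ 2).coeff (2 * (n + (k + 1))) = v * Q.coeff (n + (k + 1) - e) ^ 2 := by
        have h5 : Q.natDegree ≤ n + (k + 1) - e := by omega
        have h6 : 2 * (n + (k + 1)) = 2 * e + 2 * (n + (k + 1) - e) := by omega
        rw [h6, coeff_mul_add_eq_of_natDegree_le hT
          ((natDegree_pow_le).trans (Nat.mul_le_mul_left 2 h5)), coeff_pow_of_natDegree_le h5, hTv]
      have c3 : (∑ i, S i ^ 2).coeff (2 * (n + (k + 1))) =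
          ∑ i, (S i).coeff (n + (k + 1)) ^ 2 := by
        rw [finsetSum_coeff]
        exact Finset.sum_congr rfl fun i _ => coeff_pow_of_natDegree_le (h3 i)
      rw [coeff_add, coeff_add, c1, c2, c3] at c0
      obtain ⟨d1, d2, d3⟩ := hH m _ _ _ c0
      refine ih (natDegree_le_of_coeff_zero h1 d1) ?_ (fun i =>
        natDegree_le_of_coeff_zero (h3 i) (congrFun d3 i))
      have h7 : Q.natDegree ≤ (n + k - e) + 1 := by omega
      have h8 : Q.coeff ((n + k - e) + 1) = 0 := by
        have : n + (k + 1) - e = (n + k - e) + 1 := by omega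
        rwa [this] at d2
      have := natDegree_le_of_coeff_zero h7 h8
      omega
  refine key (P.natDegree + (Q.natDegree + e) + ∑ i, (S i).natDegree) (by omega) (by omega) ?_
  intro i
  have := Finset.single_le_sum (f := fun i => (S i).natDegree) (fun _ _ => Nat.zero_le _)
    (Finset.mem_univ i)
  omega

/-- A nonzero polynomial without irreducible factors of odd degree has even degree. -/
lemma even_natDegree (x : F[X]) : x ≠ 0 →
    (∀ p : F[X], Irreducible p → Odd p.natDegree → ¬ p ∣ x) → Even x.natDegree := by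
  induction x using WfDvdMonoid.induction_on_irreducible with
  | zero => intro h; exact absurd rfl h
  | unit u hu => intro _ _; rw [natDegree_eq_zero_of_isUnit hu]; exact Even.zero
  | mul a i ha hi ih =>
    intro _ hp
    rw [natDegree_mul hi.ne_zero ha]
    have h1 : Even i.natDegree := by
      by_contra h
      exact hp i hi (Nat.not_even_iff_odd.1 h) (dvd_mul_right _ _)
    exact h1.add (ih ha fun p hp1 hp2 hp3 => hp p hp1 hp2 (hp3.mul_left i))

lemma fpoly_natDegree_le (a c : F) : (fpoly a c).natDegree ≤ 6 := by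
  unfold fpoly
  compute_degree

lemma fpoly_coeff (a c : F) : (fpoly a c).coeff 6 = a := by
  unfold fpoly
  simp [coeff_X_pow]

/-- The hypotheses on the parameters. -/
structure Hyp (α a c : F) : Prop where
  hf : ∃ (r : ℕ) (g : Fin r → F[X]), fpoly a c = ∑ i, g i ^ 2
  h1 : ∀ p : F[X], Irreducible p → Odd p.natDegree → ∀ (m : ℕ) (x y : F[X]) (z : Fin m → F[X]),
      p ∣ C α * x ^ 2 - C (α * (α + a)) * y ^ 2 + ∑ i, z i ^ 2 → p ∣ x ∧ p ∣ y ∧ ∀ i, p ∣ z i
  h2 : ∀ p : F[X], Irreducible p → Odd p.natDegree → ∀ (m : ℕ) (x y : F[X]) (z : Fin m → F[X]),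
      p ∣ -C (α + a) * x ^ 2 + C α * fpoly a c * y ^ 2 + ∑ i, z i ^ 2 →
        p ∣ x ∧ p ∣ y ∧ ∀ i, p ∣ z i
  h3 : ∀ (m : ℕ) (x y : F) (z : Fin m → F), α * x ^ 2 - α * (α + a) * y ^ 2 + ∑ i, z i ^ 2 = 0 →
      x = 0 ∧ y = 0 ∧ z = 0
  h4 : ∀ (m : ℕ) (x y : F) (z : Fin m → F), -(α + a) * x ^ 2 + α * a * y ^ 2 + ∑ i, z i ^ 2 = 0 →
      x = 0 ∧ y = 0 ∧ z = 0

namespace Hyp

variable {α a c : F} (H : Hyp α a c)

include H

lemma α0 : α ≠ 0 := by
  rintro rfl
  have := (H.h3 0 1 0 0 (by simp)).1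
  exact one_ne_zero this

lemma γ0 : α + a ≠ 0 := by
  intro h
  have := (H.h4 0 1 0 0 (by simp [h])).1
  exact one_ne_zero this

lemma a0 : a ≠ 0 := by
  rintro rfl
  have := (H.h4 0 0 1 0 (by simp)).2.1
  exact one_ne_zero this

lemma natDegree_f : (fpoly a c).natDegree = 6 :=
  le_antisymm (fpoly_natDegree_le a c) (le_natDegree_of_ne_zero (by rw [fpoly_coeff]; exact H.a0))

lemma f0 : fpoly a c ≠ 0 := by
  intro h
  have := H.natDegree_f
  rw [h, natDegree_zero] at this
  omega

lemma not_dvd_f (p : F[X]) (hp : Irreducible p) (ho : Odd p.natDegree) : ¬ p ∣ fpoly a c := by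
  intro h
  have := (H.h2 p hp ho 0 0 1 0 (by simpa using h.mul_left (C α))).2.1
  exact hp.not_isUnit (isUnit_of_dvd_one this)

/-- The main descent. -/
lemma no_sol_poly {m : ℕ} : ∀ (N : ℕ) (x z y : F[X]) (s : Fin m → F[X]),
    x.natDegree + z.natDegree + y.natDegree + ∑ i, (s i).natDegree = N →
    C (α + a) * x ^ 2 + C (α * (α + a)) * fpoly a c * z ^ 2 =
      C α * fpoly a c * y ^ 2 + ∑ i, s i ^ 2 → x = 0 ∧ z = 0 ∧ y = 0 ∧ ∀ i, s i = 0 := by
  intro N
  induction N using Nat.strong_induction_on with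
  | _ N ih =>
    intro x z y s hN h
    by_contra hne
    have hf0 := H.f0
    obtain ⟨r, g, hg⟩ := H.hf
    -- no irreducible divides everything
    have hdiv : ∀ p : F[X], Irreducible p → p ∣ x → p ∣ z → p ∣ y → (∀ i, p ∣ s i) → False := by
      intro p hp ⟨x', hx⟩ ⟨z', hz⟩ ⟨y', hy⟩ hs
      choose s' hs using hs
      have hd : 0 < p.natDegree := hp.natDegree_pos
      have h' : C (α + a) * x' ^ 2 + C (α * (α + a)) * fpoly a c * z' ^ 2 =
          C α * fpoly a c * y' ^ 2 + ∑ i, s' i ^ 2 := by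
        have hp2 : p ^ 2 ≠ 0 := pow_ne_zero _ hp.ne_zero
        apply mul_left_cancel₀ hp2
        have e1 : ∑ i, s i ^ 2 = p ^ 2 * ∑ i, s' i ^ 2 := by
          rw [Finset.mul_sum]
          exact Finset.sum_congr rfl fun i _ => by rw [hs i, mul_pow]
        rw [e1, hx, hz, hy] at h
        linear_combination h
      have hle : ∀ (u u' : F[X]), u = p * u' → u'.natDegree ≤ u.natDegree := by
        rintro u u' rfl
        by_cases h0 : u' = 0
        · simp [h0]
        · rw [natDegree_mul hp.ne_zero h0]; omega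
      have hlt : ∀ (u u' : F[X]), u = p * u' → u ≠ 0 → u'.natDegree < u.natDegree := by
        rintro u u' rfl hu
        rw [natDegree_mul hp.ne_zero (right_ne_zero_of_mul hu)]; omega
      have l1 := hle _ _ hx
      have l2 := hle _ _ hz
      have l3 := hle _ _ hy
      have l4 : ∑ i, (s' i).natDegree ≤ ∑ i, (s i).natDegree :=
        Finset.sum_le_sum fun i _ => hle _ _ (hs i)
      have hlt' : x'.natDegree + z'.natDegree + y'.natDegree + ∑ i, (s' i).natDegree < N := by
        rw [← hN]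
        by_cases hx0 : x = 0
        · by_cases hz0 : z = 0
          · by_cases hy0 : y = 0
            · have : ∃ i, s i ≠ 0 := by
                by_contra hcon
                push Not at hcon
                exact hne ⟨hx0, hz0, hy0, hcon⟩
              obtain ⟨i, hi⟩ := this
              have : ∑ i, (s' i).natDegree < ∑ i, (s i).natDegree :=
                Finset.sum_lt_sum (fun i _ => hle _ _ (hs i)) ⟨i, Finset.mem_univ _, hlt _ _ (hs i) hi⟩
              omega
            · have := hlt _ _ hy hy0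
              omega
          · have := hlt _ _ hz hz0
            omega
        · have := hlt _ _ hx hx0
          omega
      obtain ⟨q1, q2, q3, q4⟩ := ih _ hlt' x' z' y' s' rfl h'
      exact hne ⟨by rw [hx, q1, mul_zero], by rw [hz, q2, mul_zero], by rw [hy, q3, mul_zero],
        fun i => by rw [hs i, q4 i, mul_zero]⟩
    -- the multiplied equation
    have hmul : C α * (fpoly a c * y) ^ 2 - C (α * (α + a)) * (fpoly a c * z) ^ 2 +
        ∑ k : Fin (m * r), (g (finProdFinEquiv.symm k).2 * s (finProdFinEquiv.symm k).1) ^ 2 =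
        C (α + a) * fpoly a c * x ^ 2 := by
      have e1 : ∑ k : Fin (m * r), (g (finProdFinEquiv.symm k).2 *
          s (finProdFinEquiv.symm k).1) ^ 2 = fpoly a c * ∑ i, s i ^ 2 := by
        rw [finProdFinEquiv.symm.sum_comp (fun k : Fin m × Fin r => (g k.2 * s k.1) ^ 2),
          Fintype.sum_prod_type, Finset.mul_sum]
        refine Finset.sum_congr rfl fun i _ => ?_
        rw [hg, Finset.sum_mul]
        exact Finset.sum_congr rfl fun j _ => by rw [mul_pow]
      rw [e1]
      linear_combination (-fpoly a c) * h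
    -- (A)
    have hA : ∀ p : F[X], Irreducible p → Odd p.natDegree → ¬ p ∣ x := by
      intro p hp ho hpx
      have h1 := H.h1 p hp ho _ _ _ _ (by
        rw [hmul]
        exact (hpx.mul_left x).trans (by rw [← pow_two]; exact dvd_mul_left _ _))
      obtain ⟨h11, h12, h13⟩ := h1
      have hpf := H.not_dvd_f p hp ho
      have hy := (hp.prime.dvd_or_dvd h11).resolve_left hpf
      have hz := (hp.prime.dvd_or_dvd h12).resolve_left hpf
      refine hdiv p hp hpx hz hy fun i => ?_
      have h2 : p ∣ fpoly a c * s i ^ 2 := by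
        rw [hg, Finset.sum_mul]
        refine Finset.dvd_sum fun j _ => ?_
        have := h13 (finProdFinEquiv (i, j))
        simp only [Equiv.symm_apply_apply] at this
        rw [← mul_pow]
        exact dvd_pow this two_ne_zero
      exact hp.prime.dvd_of_dvd_pow ((hp.prime.dvd_or_dvd h2).resolve_left hpf)
    -- (B)
    have hB : ∀ p : F[X], Irreducible p → Odd p.natDegree → ¬ p ∣ z := by
      intro p hp ho hpz
      have h2 := H.h2 p hp ho m x y s (by
        have : -C (α + a) * x ^ 2 + C α * fpoly a c * y ^ 2 + ∑ i, s i ^ 2 =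
            C (α * (α + a)) * fpoly a c * z ^ 2 := by linear_combination -h
        rw [this]
        exact (dvd_pow hpz two_ne_zero).mul_left _)
      exact hdiv p hp h2.1 hpz h2.2.1 h2.2.2
    have hX : Odd (X : F[X]).natDegree := by rw [natDegree_X]; exact odd_one
    have hx0 : x ≠ 0 := by
      rintro rfl
      exact hA X irreducible_X hX (dvd_zero _)
    have hz0 : z ≠ 0 := by
      rintro rfl
      exact hB X irreducible_X hX (dvd_zero _)
    have ex := even_natDegree x hx0 hA
    have ez := even_natDegree z hz0 hB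
    have hdf := H.natDegree_f
    -- first inequality
    have i1 : x.natDegree ≤ z.natDegree + 3 := by
      refine (deg_aux (u := -(α + a)) (v := α * a) (e := 3) (T := C α * fpoly a c) ?_ ?_ H.h4 x y s
        (z.natDegree + 3) (by omega) ?_).1
      · exact (natDegree_C_mul_le _ _).trans (by omega)
      · rw [coeff_C_mul, fpoly_coeff]
      · have : C (-(α + a)) * x ^ 2 + C α * fpoly a c * y ^ 2 + ∑ i, s i ^ 2 =
            C (α * (α + a)) * fpoly a c * z ^ 2 := by
          rw [C_neg]; linear_combination -h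
        rw [this]
        refine natDegree_mul_le.trans ?_
        have := natDegree_C_mul_le (α * (α + a)) (fpoly a c)
        have := natDegree_pow_le (p := z) (n := 2)
        omega
    have i2 : (fpoly a c * z).natDegree ≤ x.natDegree + 3 := by
      have := (deg_aux (u := α) (v := -(α * (α + a))) (e := 0) (T := C (-(α * (α + a)))) ?_ ?_
        (fun m x y z hh => H.h3 m x y z (by linear_combination hh)) (fpoly a c * y) (fpoly a c * z)
        (fun k : Fin (m * r) => g (finProdFinEquiv.symm k).2 * s (finProdFinEquiv.symm k).1)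
        (x.natDegree + 3) (by omega) ?_).2
      · simpa using this
      · rw [natDegree_C]
      · simp
      · have : C α * (fpoly a c * y) ^ 2 + C (-(α * (α + a))) * (fpoly a c * z) ^ 2 +
            ∑ k : Fin (m * r), (g (finProdFinEquiv.symm k).2 * s (finProdFinEquiv.symm k).1) ^ 2 =
            C (α + a) * fpoly a c * x ^ 2 := by
          rw [← hmul, C_neg]; ring
        rw [this]
        refine natDegree_mul_le.trans ?_
        have := natDegree_C_mul_le (α + a) (fpoly a c)
        have := natDegree_pow_le (p := x) (n := 2)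
        omega
    rw [natDegree_mul hf0 hz0, hdf] at i2
    obtain ⟨k1, hk1⟩ := ex
    obtain ⟨k2, hk2⟩ := ez
    omega

lemma no_sol {m : ℕ} (x z y : RatFunc F) (s : Fin m → RatFunc F)
    (h : RatFunc.C (α + a) * x ^ 2 + RatFunc.C (α * (α + a)) *
      algebraMap F[X] (RatFunc F) (fpoly a c) * z ^ 2 =
      RatFunc.C α * algebraMap F[X] (RatFunc F) (fpoly a c) * y ^ 2 + ∑ i, s i ^ 2) :
    x = 0 ∧ z = 0 ∧ y = 0 ∧ ∀ i, s i = 0 := by
  obtain ⟨⟨b, hb⟩, hv⟩ := IsLocalization.exist_integer_multiples_of_finite (nonZeroDivisors F[X])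
    (Sum.elim ![x, z, y] s : Fin 3 ⊕ Fin m → RatFunc F)
  have hb0 : b ≠ 0 := nonZeroDivisors.ne_zero hb
  have hb1 : algebraMap F[X] (RatFunc F) b ≠ 0 := by
    rw [Ne, FaithfulSMul.algebraMap_eq_zero_iff]; exact hb0
  obtain ⟨x', hx⟩ := hv (Sum.inl 0)
  obtain ⟨z', hz⟩ := hv (Sum.inl 1)
  obtain ⟨y', hy⟩ := hv (Sum.inl 2)
  have hs := fun i => hv (Sum.inr i)
  choose s' hs' using hs
  simp only [Sum.elim_inl, Sum.elim_inr, Matrix.cons_val_zero, Matrix.cons_val_one,
    Matrix.cons_val, Algebra.smul_def] at hx hz hy hs'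
  have hpoly : C (α + a) * x' ^ 2 + C (α * (α + a)) * fpoly a c * z' ^ 2 =
      C α * fpoly a c * y' ^ 2 + ∑ i, s' i ^ 2 := by
    apply FaithfulSMul.algebraMap_injective F[X] (RatFunc F)
    simp only [map_add, map_mul, map_pow, map_sum, hx, hz, hy, hs', RatFunc.algebraMap_C] at h ⊢
    have e1 : ∑ i, (algebraMap F[X] (RatFunc F) b * s i) ^ 2 =
        (algebraMap F[X] (RatFunc F) b) ^ 2 * ∑ i, s i ^ 2 := by
      rw [Finset.mul_sum]
      exact Finset.sum_congr rfl fun i _ => by rw [mul_pow]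
    rw [e1]
    linear_combination ((algebraMap F[X] (RatFunc F) b) ^ 2) * h
  obtain ⟨q1, q2, q3, q4⟩ := H.no_sol_poly _ x' z' y' s' rfl hpoly
  refine ⟨?_, ?_, ?_, fun i => ?_⟩
  · rw [q1, map_zero] at hx
    exact (mul_eq_zero.1 hx.symm).resolve_left hb1
  · rw [q2, map_zero] at hz
    exact (mul_eq_zero.1 hz.symm).resolve_left hb1
  · rw [q3, map_zero] at hy
    exact (mul_eq_zero.1 hy.symm).resolve_left hb1
  · have := hs' i
    rw [q4 i, map_zero] at this
    exact (mul_eq_zero.1 this.symm).resolve_left hb1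

end Hyp

lemma exists_smul {K : Type} [Field K] (c w : Fin 3 → K) (hw : w ≠ 0)
    (h : ∀ i j, c i * w j = c j * w i) : ∃ l : K, ∀ i, c i = l * w i := by
  obtain ⟨j, hj⟩ := Function.ne_iff.1 hw
  refine ⟨c j / w j, fun i => ?_⟩
  have hj' : w j ≠ 0 := hj
  field_simp
  exact h i j

end

theorem w3_thm : S_W3 := by
  intro F _ _ α a c hf ha h1 h2 h3 h4
  have H : Hyp α a c := ⟨hf, h1, h2, h3, h4⟩
  have hα := H.α0
  have hγ := H.γ0
  have hf0 := H.f0
  intro q
  have hf1 : algebraMap F[X] (RatFunc F) (fpoly a c) ≠ 0 := by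
    rw [Ne, FaithfulSMul.algebraMap_eq_zero_iff]; exact hf0
  have hα1 : (RatFunc.C α : RatFunc F) ≠ 0 := by
    rw [Ne, map_eq_zero]; exact hα
  have hγ1 : (RatFunc.C (α + a) : RatFunc F) ≠ 0 := by
    rw [Ne, map_eq_zero]; exact hγ
  have q0 : q 0 = RatFunc.C α * algebraMap F[X] (RatFunc F) (fpoly a c) := rfl
  have q1 : q 1 = 1 := rfl
  have q2 : q 2 = -RatFunc.C (α + a) := rfl
  refine ⟨?_, ?_, ?_⟩
  · intro i
    fin_cases i
    · exact mul_ne_zero hα1 hf1
    · exact one_ne_zero
    · exact neg_ne_zero.2 hγ1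
  · obtain ⟨r, g, hg⟩ := hf
    obtain ⟨a₁, a₂, ha⟩ := ha
    refine ⟨r + 3, fun k => Sum.elim (fun j => ![algebraMap F[X] (RatFunc F) (g j) /
      algebraMap F[X] (RatFunc F) (fpoly a c), 0, 0]) ![![0, RatFunc.C a₁, 0], ![0, RatFunc.C a₂, 0],
      ![0, 0, 1]] (finSumFinEquiv.symm k), ?_, ?_⟩
    · intro h
      have := congrFun (congrFun h (finSumFinEquiv (Sum.inr 2))) 2
      simp at this
    · rw [finSumFinEquiv.symm.sum_comp (fun k : Fin r ⊕ Fin 3 => ∑ i, q i * (Sum.elim (fun j =>
        ![algebraMap F[X] (RatFunc F) (g j) /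
        algebraMap F[X] (RatFunc F) (fpoly a c), 0, 0]) ![![0, RatFunc.C a₁, 0], ![0, RatFunc.C a₂, 0],
        ![0, 0, 1]] k i) ^ 2), Fintype.sum_sum_type]
      simp only [Sum.elim_inl, Sum.elim_inr, Fin.sum_univ_three, q0, q1, q2]
      simp only [Matrix.cons_val_zero, Matrix.cons_val_one, Matrix.cons_val]
      have e1 : ∑ j, (RatFunc.C α * algebraMap F[X] (RatFunc F) (fpoly a c) *
          (algebraMap F[X] (RatFunc F) (g j) / algebraMap F[X] (RatFunc F) (fpoly a c)) ^ 2 +
          1 * 0 ^ 2 + -RatFunc.C (α + a) * 0 ^ 2) = RatFunc.C α := by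
        have e2 : algebraMap F[X] (RatFunc F) (fpoly a c) =
            ∑ j, (algebraMap F[X] (RatFunc F) (g j)) ^ 2 := by
          rw [hg, map_sum]
          exact Finset.sum_congr rfl fun j _ => by rw [map_pow]
        have e3 : ∀ j, (RatFunc.C α * algebraMap F[X] (RatFunc F) (fpoly a c) *
          (algebraMap F[X] (RatFunc F) (g j) / algebraMap F[X] (RatFunc F) (fpoly a c)) ^ 2 +
          1 * 0 ^ 2 + -RatFunc.C (α + a) * 0 ^ 2) =
          (RatFunc.C α / algebraMap F[X] (RatFunc F) (fpoly a c)) *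
            (algebraMap F[X] (RatFunc F) (g j)) ^ 2 := by
          intro j
          field_simp
          ring
        rw [Finset.sum_congr rfl fun j _ => e3 j, ← Finset.mul_sum, ← e2]
        field_simp
      rw [e1]
      have e4 : (RatFunc.C a : RatFunc F) = RatFunc.C a₁ ^ 2 + RatFunc.C a₂ ^ 2 := by
        rw [ha, map_add, map_pow, map_pow]
      rw [map_add, e4]
      ring
  · rintro w hw ⟨n, y, hy0, hyw, hyq⟩
    have Q : ∀ u : Fin 3 → RatFunc F, ∑ i, q i * u i ^ 2 = RatFunc.C α *
        algebraMap F[X] (RatFunc F) (fpoly a c) * u 0 ^ 2 + u 1 ^ 2 -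
        RatFunc.C (α + a) * u 2 ^ 2 := by
      intro u
      rw [Fin.sum_univ_three, q0, q1, q2]
      ring
    have hC : (RatFunc.C (α * (α + a)) : RatFunc F) = RatFunc.C α * RatFunc.C (α + a) := map_mul _ _ _
    set A : RatFunc F := RatFunc.C α with hA
    set G : RatFunc F := RatFunc.C (α + a) with hG
    set f : RatFunc F := algebraMap F[X] (RatFunc F) (fpoly a c) with hfdef
    -- the form is anisotropic
    have aniso : ∀ u : Fin 3 → RatFunc F, A * f * u 0 ^ 2 + u 1 ^ 2 - G * u 2 ^ 2 = 0 → u = 0 := by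
      intro u hu
      obtain ⟨r1, r2, r3, -⟩ := H.no_sol (m := 0) (A * f * u 0) (u 1) (G * u 2) 0 (by
        simp only [Finset.univ_eq_empty, Finset.sum_empty]
        rw [hC]
        linear_combination (G * A * f) * hu)
      have r1' : u 0 = 0 := (mul_eq_zero.1 r1).resolve_left (mul_ne_zero hα1 hf1)
      have r3' : u 2 = 0 := (mul_eq_zero.1 r3).resolve_left hγ1
      ext i
      fin_cases i
      · exact r1'
      · exact r2
      · exact r3'
    obtain ⟨k₀, hk₀⟩ := Function.ne_iff.1 hy0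
    set u := y k₀ with hu
    have hu0 : A * f * u 0 ^ 2 + u 1 ^ 2 - G * u 2 ^ 2 ≠ 0 := fun h => hk₀ (aniso u h)
    have hwu : w 0 * u 0 + w 1 * u 1 + w 2 * u 2 = 0 := by
      have := hyw k₀
      rwa [Fin.sum_univ_three] at this
    -- cross products
    have hcross : ∀ k, ∃ l : RatFunc F, y k 1 * u 2 - y k 2 * u 1 = l * w 0 ∧
        y k 2 * u 0 - y k 0 * u 2 = l * w 1 ∧ y k 0 * u 1 - y k 1 * u 0 = l * w 2 := by
      intro k
      have hwy : w 0 * y k 0 + w 1 * y k 1 + w 2 * y k 2 = 0 := by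
        have := hyw k
        rwa [Fin.sum_univ_three] at this
      obtain ⟨l, hl⟩ := exists_smul ![y k 1 * u 2 - y k 2 * u 1, y k 2 * u 0 - y k 0 * u 2,
        y k 0 * u 1 - y k 1 * u 0] w hw (by
          have c01 : (y k 1 * u 2 - y k 2 * u 1) * w 1 = (y k 2 * u 0 - y k 0 * u 2) * w 0 := by
            linear_combination u 2 * hwy - y k 2 * hwu
          have c02 : (y k 1 * u 2 - y k 2 * u 1) * w 2 = (y k 0 * u 1 - y k 1 * u 0) * w 0 := by
            linear_combination -u 1 * hwy + y k 1 * hwu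
          have c12 : (y k 2 * u 0 - y k 0 * u 2) * w 2 = (y k 0 * u 1 - y k 1 * u 0) * w 1 := by
            linear_combination u 0 * hwy - y k 0 * hwu
          intro i j
          fin_cases i <;> fin_cases j
          · rfl
          · exact c01
          · exact c02
          · exact c01.symm
          · rfl
          · exact c12
          · exact c02.symm
          · exact c12.symm
          · rfl)
      exact ⟨l, hl 0, hl 1, hl 2⟩
    choose l hl0 hl1 hl2 using hcross
    set d := A * f * u 0 ^ 2 + u 1 ^ 2 - G * u 2 ^ 2 with hd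
    set D := -G * w 0 ^ 2 - A * f * G * w 1 ^ 2 + A * f * w 2 ^ 2 with hD
    have hgram : ∀ k, (A * f * y k 0 ^ 2 + y k 1 ^ 2 - G * y k 2 ^ 2) * d =
        (A * f * y k 0 * u 0 + y k 1 * u 1 - G * y k 2 * u 2) ^ 2 + l k ^ 2 * D := by
      intro k
      have e : l k ^ 2 * D = -G * (l k * w 0) ^ 2 - A * f * G * (l k * w 1) ^ 2 +
          A * f * (l k * w 2) ^ 2 := by rw [hD]; ring
      rw [e, ← hl0 k, ← hl1 k, ← hl2 k, hd]
      ring
    set B : Fin n → RatFunc F := fun k => A * f * y k 0 * u 0 + y k 1 * u 1 - G * y k 2 * u 2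
      with hB
    have hsum : (∑ k, B k ^ 2) + (∑ k, l k ^ 2) * D = 0 := by
      have e1 : ∑ k, (A * f * y k 0 ^ 2 + y k 1 ^ 2 - G * y k 2 ^ 2) * d = 0 := by
        rw [← Finset.sum_mul, ← Finset.sum_congr rfl fun k _ => Q (y k), hyq, zero_mul]
      rw [Finset.sum_congr rfl fun k _ => hgram k, Finset.sum_add_distrib, ← Finset.sum_mul] at e1
      exact e1
    have hBu : B k₀ = d := by rw [hB, hd]; simp only [← hu]; ring
    by_cases hL : ∑ k, l k ^ 2 = 0
    · rw [hL, zero_mul, add_zero] at hsum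
      have := (H.no_sol 0 0 0 B (by simp [hsum])).2.2.2 k₀
      exact hu0 (by rw [← hBu]; exact this)
    · set L := ∑ k, l k ^ 2 with hLdef
      obtain ⟨r1, r2, r3, -⟩ := H.no_sol (m := n * n) (L * w 0) (L * w 1) (L * w 2)
        (fun k => B (finProdFinEquiv.symm k).1 * l (finProdFinEquiv.symm k).2) (by
          have e1 : ∑ k : Fin (n * n), (B (finProdFinEquiv.symm k).1 *
              l (finProdFinEquiv.symm k).2) ^ 2 = (∑ k, B k ^ 2) * L := by
            rw [finProdFinEquiv.symm.sum_comp (fun k : Fin n × Fin n => (B k.1 * l k.2) ^ 2),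
              Fintype.sum_prod_type, hLdef, Finset.sum_mul_sum]
            exact Finset.sum_congr rfl fun i _ => Finset.sum_congr rfl fun j _ => by rw [mul_pow]
          rw [e1, hC]
          have e2 : (∑ k, B k ^ 2) = -(L * D) := by linear_combination hsum
          rw [e2, hD]
          ring)
      apply hw
      ext i
      fin_cases i
      · exact (mul_eq_zero.1 r1).resolve_left hL
      · exact (mul_eq_zero.1 r2).resolve_left hL
      · exact (mul_eq_zero.1 r3).resolve_left hL

end Pool.Agent.Helper41.W4
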